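import Pool.Agent.H29.DL3

namespace Pool.Agent.Results.MP_6bd626_an.Fails

open H29.LipR H29.DL

theorem result : ∃ (G : Type) (_ : Group G) (X : Type) (_ : NormedAddCommGroup X)
    (_ : NormedSpace ℝ X) (_ : CompleteSpace X) (ρ : G →* (X ≃ₗᵢ[ℝ] X)),
    ¬ ∃ P : Ops X, IsProj P ∧ ∀ g : G, Commutes P ((ρ g)⁻¹ : X ≃ₗᵢ[ℝ] X) := by
  refine ⟨lR 2 ≃ₗᵢ[ℝ] lR 2, inferInstance, lR 2, inferInstance, inferInstance, inferInstance,
    MonoidHom.id _, ?_⟩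
  rintro ⟨P, h1, h2⟩
  refine lp_not_dl (p := 2) (by simp) (by simp) (dl_of ⟨P, h1, fun g => ?_⟩)
  simpa using h2 g⁻¹

end Pool.Agent.Results.MP_6bd626_an.Fails
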